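import Pool.Agent.E8helper60.CQ.Main

/-!
# The McKay–Galois conjecture: affine groups decide

A finite group `X` is affine over the prime `q` if it has a normal elementary abelian `q`-subgroup
`V ≠ 1` with `C_X(V) = V` and a complement; so `V` is a faithful module for the complement and (for
`q ≠ p`) the generalized Fitting subgroup of `X` is a `q`-group. We show that the McKay–Galois
conjecture for all finite groups is equivalent to the McKay–Galois conjecture for the affine groups
over one prime `q` (which may be `p` or not).

Outline of the proof. Let `G` be a finite group with Sylow `p`-subgroup `P`, `N = N_G(P)`, let `V` be a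
faithful module for `G` over the field with `q` elements and let `Ω` be a group of field automorphisms.
Wigner's little groups describe the irreducible characters of `V ^ n ⋊ G` by the pairs `(θ, ψ)`, `θ` a
linear character of `V ^ n` and `ψ` an irreducible character of its stabilizer. So the number of the
`Ω`-invariant characters of degree prime to `p` of `V ^ n ⋊ G` is the sum over the linear characters
`θ = (θ_1, …, θ_n)` of `F(T_θ)`, where `T_θ ≤ G × Aut(ℂ)` consists of the `(g, σ)` with `σθ = θ ∘ g`,
and `T_θ` is the intersection of the groups of the `θ_i`. For the Sylow normalizer, which is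
`V ^ n ⋊ N` if `q = p` and `C_V(P) ^ n ⋊ N` if `q ≠ p`, the same holds with another function `F'` of
`T_θ` (for `q ≠ p` the linear characters of `C_V(P)` are those of `V` fixed by `P`). So the difference
is an exponential sum `∑ c_b b ^ n` with positive integers `b`. If it is zero for all large `n`, then it
is zero for `n = 0`, where it is the difference for `G` and `N`.
-/

set_option autoImplicit false

namespace Pool.Agent.Results.MP_1ae3da_al.AffineGroupsH60

open Pool.Agent.E8helper60.CQ (main_aff q_CNT q_CMP q_TOP q_EXP q_PI q_WR q_SP q_SQ q_COP q_AE q_AP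
  q_AW q_AN)

/-- `χ` is the character of an irreducible finite-dimensional complex representation of `G`. -/
def IsIrr {G : Type} [Group G] (χ : G → ℂ) : Prop :=
  ∃ (V : Type) (_ : AddCommGroup V) (_ : Module ℂ V) (_ : FiniteDimensional ℂ V)
    (ρ : Representation ℂ G V), ρ.IsIrreducible ∧ χ = ρ.character

/-- `Irr_{p'}(G)`: the irreducible characters of `G` of degree prime to `p`. -/
def IrrPrime (p : ℕ) (G : Type) [Group G] : Set (G → ℂ) :=
  {χ | IsIrr χ ∧ ∃ n : ℕ, (n : ℂ) = χ 1 ∧ ¬ p ∣ n}

/-- `𝓗`: the field automorphisms `σ` for which there is `e ≥ 0` with `σ(ξ) = ξ ^ (p ^ e)` for all roots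
of unity `ξ` of order prime to `p`. -/
def H (p : ℕ) : Set (ℂ ≃+* ℂ) :=
  {σ | ∃ e : ℕ, ∀ (ξ : ℂ) (m : ℕ), ¬ p ∣ m → ξ ^ m = 1 → σ ξ = ξ ^ p ^ e}

/-- There is a bijection `A → B` which commutes with the action `χ ↦ σ ∘ χ` of all `σ ∈ 𝓗` (and `A` is
stable under this action). -/
def PermIso (p : ℕ) {G N : Type} (A : Set (G → ℂ)) (B : Set (N → ℂ)) : Prop :=
  ∃ f : A ≃ B, ∀ σ ∈ H p, ∀ χ : A, ∃ h : (fun g => σ ((χ : G → ℂ) g)) ∈ A,
    (f ⟨fun g => σ ((χ : G → ℂ) g), h⟩ : N → ℂ) = fun g => σ ((f χ : N → ℂ) g)

/-- The members of `Irr_{p'}(G)` whose `𝓗`-orbits have `p`-power length. (The length of the orbit is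
the degree of the field generated by the values of `χ` over the field of `p`-adic numbers.) -/
def IrrPPower (p : ℕ) (G : Type) [Group G] : Set (G → ℂ) :=
  {χ | χ ∈ IrrPrime p G ∧
    ∃ k : ℕ, Nat.card {ψ : G → ℂ // ∃ σ ∈ H p, ψ = fun g => σ (χ g)} = p ^ k}

/-- **The McKay–Galois conjecture** for the group `G` (and all its Sylow `p`-subgroups `P`). -/
def McKayGalois (p : ℕ) (G : Type) [Group G] : Prop :=
  ∀ P : Sylow p G,
    PermIso p (IrrPrime p G) (IrrPrime p (Subgroup.normalizer ((P : Subgroup G) : Set G)))

/-- The number of the members of `Irr_{p'}(G)` which are fixed by all `σ ∈ Ω`. -/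
noncomputable def numFixed (p : ℕ) (Ω : Subgroup (ℂ ≃+* ℂ)) (G : Type) [Group G] : ℕ :=
  Nat.card {χ : G → ℂ // χ ∈ IrrPrime p G ∧ ∀ σ ∈ Ω, ∀ g, σ (χ g) = χ g}

/-- For all Sylow `p`-subgroups `P` of `G` each of the numbers of the `Ω`-invariant characters in
`Irr_{p'}(G)` and in `Irr_{p'}(N_G(P))` is at most `C |G| ^ ε` times the other. -/
def Close (p : ℕ) (Ω : Subgroup (ℂ ≃+* ℂ)) (C ε : ℝ) (G : Type) [Group G] : Prop :=
  ∀ P : Sylow p G,
    (numFixed p Ω G : ℝ) ≤ C * (Nat.card G : ℝ) ^ ε *
      numFixed p Ω (Subgroup.normalizer ((P : Subgroup G) : Set G)) ∧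
    (numFixed p Ω (Subgroup.normalizer ((P : Subgroup G) : Set G)) : ℝ) ≤
      C * (Nat.card G : ℝ) ^ ε * numFixed p Ω G

/-- The group `X` is affine over the prime `q`: it has a normal elementary abelian `q`-subgroup `V ≠ 1`
which contains (so is equal to) its centralizer, and a complement `K` of `V` with `h(|K|) ≤ |V|`. -/
def IsAffine (q : ℕ) (h : ℕ → ℕ) (X : Type) [Group X] : Prop :=
  ∃ V K : Subgroup X, V.Normal ∧ IsCompl V K ∧ (∀ a ∈ V, ∀ b ∈ V, a * b = b * a) ∧
    (∀ a ∈ V, a ^ q = 1) ∧ V ≠ ⊥ ∧ Subgroup.centralizer (V : Set X) ≤ V ∧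
    h (Nat.card K) ≤ Nat.card V

/-- The class `X` of finite groups is closed under direct products, under wreath products `G ≀ C` with
groups `C` of prime order different from `p`, under normalizers of Sylow `p`-subgroups, and under
wreath products `E ≀ G` with elementary abelian `p`-groups and `q`-groups `E`. (For instance the class
of all finite groups.) -/
structure IsClosedClass (p q : ℕ) (X : (G : Type) → [Group G] → Prop) : Prop where
  prod : ∀ (G K : Type) [Group G] [Group K] [Finite G] [Finite K], X G → X K → X (G × K)
  wreath : ∀ (G C : Type) [Group G] [Group C] [Finite G] [Finite C], X G → (Nat.card C).Prime →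
    Nat.card C ≠ p → X (RegularWreathProduct G C)
  normalizer : ∀ (G : Type) [Group G] [Finite G] (P : Sylow p G), X G →
    X (Subgroup.normalizer ((P : Subgroup G) : Set G))
  elementary : ∀ (r n : ℕ) (G : Type) [Group G] [Finite G], r = p ∨ r = q → X G →
    X (RegularWreathProduct (Multiplicative (Fin n → ZMod r)) G)

/-- **The McKay–Galois conjecture: affine groups decide.** Let `p` and `q` be primes (`q = p` is
allowed), let `h` be any function and let `X` be a class of finite groups closed under direct products,
normalizers of Sylow `p`-subgroups, wreath products `G ≀ C` with groups `C` of prime order different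
from `p` and wreath products `E ≀ G` with elementary abelian `p`-groups and `q`-groups `E` (for
instance the class of all finite groups). The following are equivalent:
(1) the McKay–Galois conjecture for all groups in `X`;
(2) the McKay–Galois conjecture for those groups in `X` which are semidirect products `V ⋊ K` of an
elementary abelian `q`-group `V ≠ 1` and a group `K` acting faithfully on it, with `|V| ≥ h(|K|)`;
(3) for each group `Ω` of automorphisms in the group generated by `𝓗` and each `ε > 0` there is `C`
such that for those groups `G` in `X` which are affine over `q` and all `P` each of the numbers of the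
`Ω`-invariant characters in `Irr_{p'}(G)` and `Irr_{p'}(N_G(P))` is at most `C |G| ^ ε` times the other;
(4) for the groups in `X` which are affine over `p` there are such bijections between the sets of those
characters whose `𝓗`-orbits have `p`-power length;
(5) the statement of (3) for the groups in `X` which are affine over `p` and those `Ω` which contain a
`p`-power of each `σ ∈ 𝓗`. -/
theorem result (p q : ℕ) [Fact p.Prime] [Fact q.Prime] (h : ℕ → ℕ)
    (X : (G : Type) → [Group G] → Prop) (hX : IsClosedClass p q X) :
    List.TFAE [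
      ∀ (G : Type) [Group G] [Finite G], X G → McKayGalois p G,
      ∀ (G : Type) [Group G] [Finite G], X G → IsAffine q h G → McKayGalois p G,
      ∀ Ω : Subgroup (ℂ ≃+* ℂ), Ω ≤ Subgroup.closure (H p) → ∀ ε : ℝ, 0 < ε → ∃ C : ℝ,
        ∀ (G : Type) [Group G] [Finite G], X G → IsAffine q (fun _ => 0) G → Close p Ω C ε G,
      ∀ (G : Type) [Group G] [Finite G], X G → IsAffine p (fun _ => 0) G →
        ∀ P : Sylow p G,
          PermIso p (IrrPPower p G) (IrrPPower p (Subgroup.normalizer ((P : Subgroup G) : Set G))),
      ∀ Ω : Subgroup (ℂ ≃+* ℂ), Ω ≤ Subgroup.closure (H p) →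
        (∀ σ ∈ H p, ∃ k : ℕ, σ ^ p ^ k ∈ Ω) → ∀ ε : ℝ, 0 < ε → ∃ C : ℝ,
        ∀ (G : Type) [Group G] [Finite G], X G → IsAffine p (fun _ => 0) G → Close p Ω C ε G] := by
  have hX' : Pool.Agent.E8helper60.CQ.ClsE p q X :=
    { prod := hX.prod
      wr := hX.wreath
      norm := hX.normalizer
      elem := hX.elementary }
  exact main_aff (p := p) q_CNT q_CMP q_TOP q_EXP q_PI q_WR q_SP q_SQ q_COP q_AE q_AP q_AW q_AN
    (Fact.out : q.Prime) h hX'

end Pool.Agent.Results.MP_1ae3da_al.AffineGroupsH60
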