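import Pool.Agent.E8helper60.CQ.Main2

/-!
# The McKay–Galois conjecture is equivalent to an equivariant form

Let `G` be a finite group with Sylow `p`-subgroup `P` and let `α` be an automorphism of `G` of order
prime to `p` with `α(P) = P`. We show that the McKay–Galois conjecture for all finite groups (or for all
groups in a class of finite groups closed under certain semidirect products) implies that there is a bijection `Irr_{p'}(G) → Irr_{p'}(N_G(P))` which commutes with `α` and with all those
`σ ∈ 𝓗` whose action on the `|G|_{p'}`-th roots of unity has order prime to the order of `α`, and that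
for every `σ ∈ 𝓗` the numbers of the `χ` with `σ ∘ χ = χ ∘ α` agree. Both follow from a twisted form,
which is equivalent to the McKay–Galois conjecture for all finite groups.

Outline of the proof. Let `l` be the order of `α`, `c ≥ 1` and `m = p ^ (c l) - 1`, so that `p ^ c` has
order `l` modulo `m`. Let `Γ = G ⋊ ⟨α⟩` act on the cyclic group `V` of order `m` through `⟨α⟩`, `α` as
the `p ^ c`-th power. For `n ≥ 1` the number of the `Ω`-invariant characters of degree prime to `p` of
`V ^ n ⋊ Γ` is, by Wigner's little groups, the sum over the linear characters `θ` of `V ^ n` of a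
function of the group of all `(γ, σ)` with `σθ = θ ∘ γ`. For almost all `θ` this is the group `T` of all
`(γ, σ)` such that `σ` acts on the `m`-th roots of unity as `γ` on `V`, and its value is `1 / l` times
the number of those `ψ ∈ Irr_{p'}(G)` for which each `σ ∈ Ω` which acts on the roots of unity of order
prime to `p` as the `p ^ (c i)`-th power maps `ψ` to `ψ ∘ α ^ i`. The same holds for the Sylow
normalizer, and the leading coefficients (of `m ^ n`) agree. So Galois automorphisms encode the action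
of `α`. For the bijection the group of the pairs `(α ^ i, σ)` which fix a given character is imitated by
a group `Ω` of field automorphisms which act on the `|G|`-th roots of unity as `σ`, with the help of the
Frobenius automorphism.
-/

set_option autoImplicit false

namespace Pool.Agent.Results.MP_1ae3da_al.EquivariantH60

open Pool.Agent.E8helper60.CQ (ClsS tw_of_MG MG_of_tw pair_num bij_of_tw q_LEAD q_MEM q_HOM q_CNG q_SYA
  q_CNN q_ACT q_FROB)

/-- `χ` is the character of an irreducible finite-dimensional complex representation of `G`. -/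
def IsIrr {G : Type} [Group G] (χ : G → ℂ) : Prop :=
  ∃ (V : Type) (_ : AddCommGroup V) (_ : Module ℂ V) (_ : FiniteDimensional ℂ V)
    (ρ : Representation ℂ G V), ρ.IsIrreducible ∧ χ = ρ.character

/-- `Irr_{p'}(G)`: the irreducible characters of `G` of degree prime to `p`. -/
def IrrPrime (p : ℕ) (G : Type) [Group G] : Set (G → ℂ) :=
  {χ | IsIrr χ ∧ ∃ n : ℕ, (n : ℂ) = χ 1 ∧ ¬ p ∣ n}

/-- `𝓗`: the field automorphisms `σ` for which there is `e ≥ 0` with `σ(ξ) = ξ ^ (p ^ e)` for all roots
of unity `ξ` of order prime to `p`. -/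
def H (p : ℕ) : Set (ℂ ≃+* ℂ) :=
  {σ | ∃ e : ℕ, ∀ (ξ : ℂ) (m : ℕ), ¬ p ∣ m → ξ ^ m = 1 → σ ξ = ξ ^ p ^ e}

/-- There is a bijection `A → B` which commutes with the action `χ ↦ σ ∘ χ` of all `σ ∈ 𝓗` (and `A` is
stable under this action). -/
def PermIso (p : ℕ) {G N : Type} (A : Set (G → ℂ)) (B : Set (N → ℂ)) : Prop :=
  ∃ f : A ≃ B, ∀ σ ∈ H p, ∀ χ : A, ∃ h : (fun g => σ ((χ : G → ℂ) g)) ∈ A,
    (f ⟨fun g => σ ((χ : G → ℂ) g), h⟩ : N → ℂ) = fun g => σ ((f χ : N → ℂ) g)

/-- **The McKay–Galois conjecture** for the group `G` and its Sylow `p`-subgroup `P`. -/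
def McKayGalois (p : ℕ) (G : Type) [Group G] (P : Sylow p G) : Prop :=
  PermIso p (IrrPrime p G) (IrrPrime p (Subgroup.normalizer ((P : Subgroup G) : Set G)))

/-- `σ` acts on the roots of unity of order prime to `p` as `ξ ↦ ξ ^ (p ^ j)`, where `j` is an integer
(which may be negative): if `j = a - b` then `σ(ξ ^ (p ^ b)) = ξ ^ (p ^ a)`. -/
def Acts (p : ℕ) (j : ℤ) (σ : ℂ ≃+* ℂ) : Prop :=
  ∀ a b : ℕ, (a : ℤ) - b = j → ∀ (ξ : ℂ) (m : ℕ), ¬ p ∣ m → ξ ^ m = 1 →
    σ (ξ ^ p ^ b) = ξ ^ p ^ a

/-- For an embedding `ι` of `K` in `G` (the identity or the inclusion of a subgroup) and an automorphism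
`α` of `G`: the number of the `ψ ∈ Irr_{p'}(K)` with `σ ∘ ψ = ψ ∘ α ^ i` for all `σ ∈ Ω`, where `i` is
the integer such that `σ` acts on the roots of unity of order prime to `p` as `ξ ↦ ξ ^ (p ^ (c i))`. -/
noncomputable def numTwisted (p c : ℕ) (Ω : Subgroup (ℂ ≃+* ℂ)) {G K : Type} [Group G] [Group K]
    (ι : K →* G) (α : MulAut G) : ℕ :=
  Nat.card {ψ : K → ℂ // ψ ∈ IrrPrime p K ∧ ∀ σ ∈ Ω, ∀ i : ℤ, Acts p (c * i) σ →
    ∀ g g' : K, ι g' = (α ^ i) (ι g) → σ (ψ g) = ψ g'}

/-- `α` is an automorphism of `G` of order prime to `p` with `α(P) = P`. -/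
def IsAdm (p : ℕ) {G : Type} [Group G] (P : Sylow p G) (α : MulAut G) : Prop :=
  ¬ p ∣ orderOf α ∧ (P : Subgroup G).map α.toMonoidHom = P

/-- **The twisted McKay–Galois conjecture** for `G`, its Sylow `p`-subgroup `P` and `α`: for every
`c ≥ 1` and every group `Ω` of automorphisms in the group generated by `𝓗` whose elements act on the
roots of unity of order prime to `p` as `ξ ↦ ξ ^ (p ^ (c i))`, `i` an integer, the numbers of the
characters `ψ` in `Irr_{p'}(G)` and in `Irr_{p'}(N_G(P))` with `σ ∘ ψ = ψ ∘ α ^ i` for all `σ ∈ Ω` (and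
this `i`) agree. -/
def TwistedMcKayGalois (p : ℕ) (G : Type) [Group G] (P : Sylow p G) (α : MulAut G) : Prop :=
  ∀ (c : ℕ) (Ω : Subgroup (ℂ ≃+* ℂ)), 1 ≤ c → Ω ≤ Subgroup.closure (H p) →
    (∀ σ ∈ Ω, ∃ i : ℤ, Acts p (c * i) σ) →
    numTwisted p c Ω (MonoidHom.id G) α =
      numTwisted p c Ω (Subgroup.normalizer ((P : Subgroup G) : Set G)).subtype α

/-- For every `σ ∈ 𝓗` the numbers of the `χ ∈ Irr_{p'}(G)` with `σ ∘ χ = χ ∘ α` and of the
`ψ ∈ Irr_{p'}(N_G(P))` with `σ ∘ ψ = ψ ∘ α` agree. -/
def EqualCounts (p : ℕ) (G : Type) [Group G] (P : Sylow p G) (α : MulAut G) : Prop :=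
  ∀ σ ∈ H p, Nat.card {χ : G → ℂ // χ ∈ IrrPrime p G ∧ ∀ g, σ (χ g) = χ (α g)} =
    Nat.card {ψ : Subgroup.normalizer ((P : Subgroup G) : Set G) → ℂ // ψ ∈ IrrPrime p _ ∧
      ∀ g g' : Subgroup.normalizer ((P : Subgroup G) : Set G), (g' : G) = α g → σ (ψ g) = ψ g'}

/-- Some power `σ ^ k`, `k` prime to `l`, fixes the roots of unity of order prime to `p` dividing `n`:
the order of the action of `σ` on these roots of unity is prime to `l`. -/
def OrderPrime (p n l : ℕ) (σ : ℂ ≃+* ℂ) : Prop :=
  ∃ k : ℕ, Nat.Coprime k l ∧ ∀ (ξ : ℂ) (m : ℕ), ¬ p ∣ m → m ∣ n → ξ ^ m = 1 → (σ ^ k) ξ = ξ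

/-- There is a bijection `Irr_{p'}(G) → Irr_{p'}(N_G(P))` which commutes with the action of all those
`σ ∈ 𝓗` for which the order of the action of `σ` on the roots of unity of order prime to `p` dividing
`|G|` is prime to the order of `α`, and with the action of `α`. -/
def EquivariantBijection (p : ℕ) (G : Type) [Group G] (P : Sylow p G) (α : MulAut G) : Prop :=
  ∃ f : IrrPrime p G ≃ IrrPrime p (Subgroup.normalizer ((P : Subgroup G) : Set G)),
    (∀ σ ∈ H p, OrderPrime p (Nat.card G) (orderOf α) σ →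
      ∀ χ χ' : IrrPrime p G, (∀ g, χ'.1 g = σ (χ.1 g)) → ∀ g, (f χ').1 g = σ ((f χ).1 g)) ∧
    ∀ χ χ' : IrrPrime p G, (∀ g, χ'.1 g = χ.1 (α g)) →
      ∀ g g' : Subgroup.normalizer ((P : Subgroup G) : Set G), (g' : G) = α g →
        (f χ').1 g = (f χ).1 g'

/-- The class `X` of finite groups is closed under semidirect products `G ⋊ C` with cyclic groups `C` of
order prime to `p` and `V ⋊ G` with abelian groups `V` of order prime to `p`. (For instance the class of
all finite groups, or of all finite solvable groups.) -/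
structure IsClosedClass (p : ℕ) (X : (G : Type) → [Group G] → Prop) : Prop where
  cyclic : ∀ (G C : Type) [Group G] [Group C] [Finite G] [Finite C] (φ : C →* MulAut G),
    IsCyclic C → ¬ p ∣ Nat.card C → X G → X (G ⋊[φ] C)
  abelian : ∀ (V G : Type) [CommGroup V] [Group G] [Finite V] [Finite G] (φ : G →* MulAut V),
    ¬ p ∣ Nat.card V → X G → X (V ⋊[φ] G)

/-- **The McKay–Galois conjecture and automorphisms of order prime to `p`.** Let `p` be a prime and let
`X` be a class of finite groups closed under semidirect products `G ⋊ C` with cyclic groups `C` of order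
prime to `p` and `V ⋊ G` with abelian groups `V` of order prime to `p` (for instance the class of all
finite groups). The McKay–Galois conjecture holds for all groups in `X` if and only if for every `G` in
`X`, every Sylow `p`-subgroup `P` of `G` and every automorphism `α` of `G` of order prime to `p` with
`α(P) = P`:
(i) the twisted McKay–Galois conjecture holds for `G`, `P` and `α`: for every `c ≥ 1` and every group
`Ω` of automorphisms in the group generated by `𝓗` whose elements act on the roots of unity of order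
prime to `p` as `ξ ↦ ξ ^ (p ^ (c i))`, `i` an integer, the numbers of the `ψ` in `Irr_{p'}(G)` and in
`Irr_{p'}(N_G(P))` with `σ ∘ ψ = ψ ∘ α ^ i` for all `σ ∈ Ω` (and this `i`) agree;
(ii) for every `σ ∈ 𝓗` the numbers of the `χ ∈ Irr_{p'}(G)` with `σ ∘ χ = χ ∘ α` and of the
`ψ ∈ Irr_{p'}(N_G(P))` with `σ ∘ ψ = ψ ∘ α` agree;
(iii) there is a bijection `Irr_{p'}(G) → Irr_{p'}(N_G(P))` which commutes with the action of `α` and
with the action of all those `σ ∈ 𝓗` for which some power `σ ^ k`, `k` prime to the order of `α`, fixes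
the roots of unity of order prime to `p` dividing `|G|`. (These are all `σ ∈ 𝓗` if the order of `α` is
prime to the order of `p` modulo `|G|_{p'}`.) -/
theorem result (p : ℕ) [Fact p.Prime] (X : (G : Type) → [Group G] → Prop)
    (hX : IsClosedClass p X) :
    (∀ (G : Type) [Group G] [Finite G], X G → ∀ P : Sylow p G, McKayGalois p G P) ↔
      ∀ (G : Type) [Group G] [Finite G], X G → ∀ (P : Sylow p G) (α : MulAut G), IsAdm p P α →
        TwistedMcKayGalois p G P α ∧ EqualCounts p G P α ∧ EquivariantBijection p G P α := by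
  have hX' : ClsS p X := ⟨hX.cyclic, hX.abelian⟩
  constructor
  · intro h G _ _ hG P α hα
    have key : Pool.Agent.E8helper60.CQ.TwEq p G P :=
      tw_of_MG hX' q_LEAD q_MEM q_HOM q_CNG q_SYA q_CNN (fun G _ _ hG P => h G hG P) G hG P
    exact ⟨fun c Ω => key α c Ω hα.1 hα.2,
      fun σ hσ => pair_num q_ACT q_FROB G P key α hα.1 hα.2 σ hσ,
      bij_of_tw q_ACT q_FROB G P key α hα.1 hα.2⟩
  · intro h G _ _ hG P
    exact MG_of_tw q_ACT G P fun α c Ω h1 h2 => (h G hG P α ⟨h1, h2⟩).1 c Ω

end Pool.Agent.Results.MP_1ae3da_al.EquivariantH60
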