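import Pool.Agent.E8helper62.MG.Apx

/-!
# The McKay–Galois conjecture: orbits of `p`-power length decide

Outline of the proof. Let `Γ` be a group of field automorphisms and `q ≠ p` a prime. The characters
of degree prime to `p` of `G ≀ C_q` over nonconstant `q`-tuples of characters of `G` correspond to the
`C_q`-orbits of such tuples, so the invariant ones count the pairs `(φ, χ)` with `φ : Γ → C_q` and `χ`
fixed by `ker φ` but not by `Γ`; over a constant tuple the canonical extension is Galois equivariant.
Sylow normalizers behave in the same way. So if the numbers of the `Γ`-invariant characters agree for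
all groups, then so do the numbers `T(G) = ∑_φ (f_φ(G) - f(G))`, where `f_φ` is the number of the
characters fixed by `ker φ`. For direct products `f_φ` is multiplicative; comparing `T` for `G × G` and
for `G × N`, `N = N_G(P)`, gives `∑_φ (f_φ(G) - f_φ(N)) ^ 2 = 0`. This passes from `Γ` to its subgroups
of index `q`. The action of all field automorphisms on characters is through finite abelian groups.
-/

set_option autoImplicit false

namespace Pool.Agent.Results.MP_1ae3da_al.OrbitsOfPPowerLengthH62

/-- `χ` is the character of an irreducible finite-dimensional complex representation of `G`. -/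
def IsIrr {G : Type} [Group G] (χ : G → ℂ) : Prop :=
  ∃ (V : Type) (_ : AddCommGroup V) (_ : Module ℂ V) (_ : FiniteDimensional ℂ V)
    (ρ : Representation ℂ G V), ρ.IsIrreducible ∧ χ = ρ.character

/-- `Irr_{p'}(G)`: the irreducible characters of `G` of degree prime to `p`. -/
def IrrPrime (p : ℕ) (G : Type) [Group G] : Set (G → ℂ) :=
  {χ | IsIrr χ ∧ ∃ n : ℕ, (n : ℂ) = χ 1 ∧ ¬ p ∣ n}

/-- `𝓗`: the field automorphisms `σ` for which there is `e ≥ 0` with `σ(ξ) = ξ ^ (p ^ e)` for all roots
of unity `ξ` of order prime to `p`. -/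
def H (p : ℕ) : Set (ℂ ≃+* ℂ) :=
  {σ | ∃ e : ℕ, ∀ (ξ : ℂ) (m : ℕ), ¬ p ∣ m → ξ ^ m = 1 → σ ξ = ξ ^ p ^ e}

/-- There is a bijection `A → B` which commutes with the action `χ ↦ σ ∘ χ` of all `σ ∈ 𝓗` (and `A` is
stable under this action). -/
def PermIso (p : ℕ) {G N : Type} (A : Set (G → ℂ)) (B : Set (N → ℂ)) : Prop :=
  ∃ f : A ≃ B, ∀ σ ∈ H p, ∀ χ : A, ∃ h : (fun g => σ ((χ : G → ℂ) g)) ∈ A,
    (f ⟨fun g => σ ((χ : G → ℂ) g), h⟩ : N → ℂ) = fun g => σ ((f χ : N → ℂ) g)

/-- The members of `Irr_{p'}(G)` whose `𝓗`-orbits have `p`-power length. (The length of the orbit is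
the degree of the field generated by the values of `χ` over the field of `p`-adic numbers.) -/
def IrrPPower (p : ℕ) (G : Type) [Group G] : Set (G → ℂ) :=
  {χ | χ ∈ IrrPrime p G ∧
    ∃ k : ℕ, Nat.card {ψ : G → ℂ // ∃ σ ∈ H p, ψ = fun g => σ (χ g)} = p ^ k}

/-- The number of the members of `Irr_{p'}(G)` which are fixed by all `σ ∈ Ω`. -/
noncomputable def numFixed (p : ℕ) (Ω : Subgroup (ℂ ≃+* ℂ)) (G : Type) [Group G] : ℕ :=
  Nat.card {χ : G → ℂ // χ ∈ IrrPrime p G ∧ ∀ σ ∈ Ω, ∀ g, σ (χ g) = χ g}

/-- The class `X` of finite groups is closed under direct products, under wreath products `G ≀ C` with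
groups `C` of prime order different from `p`, and under normalizers of Sylow `p`-subgroups. (For
instance the class of all finite groups.) -/
structure IsClosedClass (p : ℕ) (X : (G : Type) → [Group G] → Prop) : Prop where
  prod : ∀ (G K : Type) [Group G] [Group K] [Finite G] [Finite K], X G → X K → X (G × K)
  wreath : ∀ (G C : Type) [Group G] [Group C] [Finite G] [Finite C], X G → (Nat.card C).Prime →
    Nat.card C ≠ p → X (RegularWreathProduct G C)
  normalizer : ∀ (G : Type) [Group G] [Finite G] (P : Sylow p G), X G →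
    X (Subgroup.normalizer ((P : Subgroup G) : Set G))

/-- **The McKay–Galois conjecture: orbits of `p`-power length decide.** Let `p` be a prime and let `X`
be a class of finite groups closed under direct products, normalizers of Sylow `p`-subgroups and wreath
products with groups of prime order different from `p` (for instance the class of all finite groups).
(1) The following are equivalent:
(a) the McKay–Galois conjecture for all groups `G` in `X` and their Sylow `p`-subgroups `P`: there is a
bijection `Irr_{p'}(G) → Irr_{p'}(N_G(P))` which commutes with the action of `𝓗`;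
(b) for these `G` and `P` there is such a bijection between the sets of those characters in
`Irr_{p'}(G)` and `Irr_{p'}(N_G(P))` whose `𝓗`-orbits have `p`-power length;
(c) for each subgroup `Ω` of the group generated by `𝓗` which contains a `p`-power of each `σ ∈ 𝓗` and
for each `ε > 0` there is `C` such that, for these `G` and `P`, each of the numbers of the characters
in `Irr_{p'}(G)` and in `Irr_{p'}(N_G(P))` fixed by `Ω` is at most `C |G| ^ ε` times the other.
(2) Let `Δ ≤ Γ` be groups of field automorphisms such that each `σ ∈ Γ` has a power `σ ^ m ∈ Δ` with `m`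
prime to `p`. If the numbers of the characters in `Irr_{p'}(G)` and in `Irr_{p'}(N_G(P))` fixed by `Γ`
are equal for all `G` in `X` and all `P`, then the same holds for `Δ`. -/
theorem result (p : ℕ) [Fact p.Prime] (X : (G : Type) → [Group G] → Prop)
    (hX : IsClosedClass p X) :
    List.TFAE [
      ∀ (G : Type) [Group G] [Finite G], X G → ∀ P : Sylow p G,
        PermIso p (IrrPrime p G) (IrrPrime p (Subgroup.normalizer ((P : Subgroup G) : Set G))),
      ∀ (G : Type) [Group G] [Finite G], X G → ∀ P : Sylow p G,
        PermIso p (IrrPPower p G) (IrrPPower p (Subgroup.normalizer ((P : Subgroup G) : Set G))),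
      ∀ Ω : Subgroup (ℂ ≃+* ℂ), Ω ≤ Subgroup.closure (H p) →
        (∀ σ ∈ H p, ∃ k : ℕ, σ ^ p ^ k ∈ Ω) → ∀ ε : ℝ, 0 < ε → ∃ C : ℝ,
        ∀ (G : Type) [Group G] [Finite G], X G → ∀ P : Sylow p G,
          (numFixed p Ω G : ℝ) ≤ C * (Nat.card G : ℝ) ^ ε *
            numFixed p Ω (Subgroup.normalizer ((P : Subgroup G) : Set G)) ∧
          (numFixed p Ω (Subgroup.normalizer ((P : Subgroup G) : Set G)) : ℝ) ≤
            C * (Nat.card G : ℝ) ^ ε * numFixed p Ω G] ∧
    ∀ Γ Δ : Subgroup (ℂ ≃+* ℂ), Δ ≤ Γ → (∀ σ ∈ Γ, ∃ m : ℕ, ¬ p ∣ m ∧ σ ^ m ∈ Δ) →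
      (∀ (G : Type) [Group G] [Finite G], X G → ∀ P : Sylow p G,
        numFixed p Γ G = numFixed p Γ (Subgroup.normalizer ((P : Subgroup G) : Set G))) →
      ∀ (G : Type) [Group G] [Finite G], X G → ∀ P : Sylow p G,
        numFixed p Δ G = numFixed p Δ (Subgroup.normalizer ((P : Subgroup G) : Set G)) := by
  have hX' : Pool.Agent.E8helper62.MG.Cls p X := ⟨hX.prod, hX.wreath, hX.normalizer⟩
  exact ⟨Pool.Agent.E8helper62.MG.main hX', fun Γ Δ h1 h2 h3 G _ _ hG P =>
    Pool.Agent.E8helper62.MG.engine' hX' h1 h2 h3 G hG P⟩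

end Pool.Agent.Results.MP_1ae3da_al.OrbitsOfPPowerLengthH62
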