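import Pool.Agent.E8helper60.MQ.Cnv

/-!
# The McKay–Galois conjecture modulo a prime

Let `q ≠ p` be primes. The numbers of `Ω`-invariant characters of degree prime to `p` of `G` and of
`N_G(P)` are congruent modulo `q` for all groups `Ω` generated by elements of `⟨𝓗⟩` and for `G`
replaced by its iterated wreath products with `C_q` if and only if there is a bijection
`Irr_{p'}(G) → Irr_{p'}(N_G(P))` commuting with all `σ ∈ 𝓗` whose action on the `|G|`-th roots of unity
has order prime to `q`. Only finitely many wreath products are needed.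

Outline of the proof. Let `a` and `b` be the numbers of `Ω`-invariant characters for `G` and `N_G(P)`
and `a₁`, `b₁` those for `G ≀ C_q` and the normalizer `N_G(P) ≀ C_q` of its Sylow `p`-subgroup. If all
elements of `Ω` act with orders prime to `q`, then no nonconstant `q`-tuple of characters is permuted
cyclically, and `q a₁ = a ^ q - a + q c a`, `q b₁ = b ^ q - b + q c b` with the same `c`. Hence
`a - b = (a ^ q - b ^ q) + q c (a - b) - q (a₁ - b₁)`. If `q ^ j` divides `a - b` and `a₁ - b₁`, then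
`q ^ (j + 1)` divides `a ^ q - b ^ q` and so `a - b`. (The roots of unity of order `|G ≀ C_q|` bring
in new elements of `q`-power order; `Ω` is replaced by a group which acts in the same way on the
characters of `G` and still has order prime to `q` on these roots of unity.) Conversely the group `Ω`
acts through a `q`-group on the characters fixed by its part of order prime to `q`.
-/

set_option autoImplicit false

namespace Pool.Agent.Results.MP_1ae3da_al.PrimeCongruencesH60

/-- `χ` is the character of an irreducible finite-dimensional complex representation of `G`. -/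
def IsIrr {G : Type} [Group G] (χ : G → ℂ) : Prop :=
  ∃ (V : Type) (_ : AddCommGroup V) (_ : Module ℂ V) (_ : FiniteDimensional ℂ V)
    (ρ : Representation ℂ G V), ρ.IsIrreducible ∧ χ = ρ.character

/-- `Irr_{p'}(G)`: the irreducible characters of `G` of degree prime to `p`. -/
def IrrPrime (p : ℕ) (G : Type) [Group G] : Set (G → ℂ) :=
  {χ | IsIrr χ ∧ ∃ n : ℕ, (n : ℂ) = χ 1 ∧ ¬ p ∣ n}

/-- `𝓗`: the field automorphisms `σ` for which there is `e ≥ 0` with `σ(ξ) = ξ ^ (p ^ e)` for all roots
of unity `ξ` of order prime to `p`. -/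
def H (p : ℕ) : Set (ℂ ≃+* ℂ) :=
  {σ | ∃ e : ℕ, ∀ (ξ : ℂ) (m : ℕ), ¬ p ∣ m → ξ ^ m = 1 → σ ξ = ξ ^ p ^ e}

/-- The order of the action of `σ` on the `n`-th roots of unity is prime to the prime number `q`:
`σ ^ m` is the identity on them for some `m` which is not divisible by `q`. -/
def OrderPrimeTo (q n : ℕ) (σ : ℂ ≃+* ℂ) : Prop :=
  ∃ m : ℕ, ¬ q ∣ m ∧ ∀ ζ : ℂ, ζ ^ n = 1 → (σ ^ m) ζ = ζ

/-- There is a bijection `A → B` which commutes with the action `χ ↦ σ ∘ χ` of all `σ ∈ S` (and `A` is
stable under this action). -/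
def PermIso (S : Set (ℂ ≃+* ℂ)) {G N : Type} (A : Set (G → ℂ)) (B : Set (N → ℂ)) : Prop :=
  ∃ f : A ≃ B, ∀ σ ∈ S, ∀ χ : A, ∃ h : (fun g => σ ((χ : G → ℂ) g)) ∈ A,
    (f ⟨fun g => σ ((χ : G → ℂ) g), h⟩ : N → ℂ) = fun g => σ ((f χ : N → ℂ) g)

/-- **The McKay–Galois conjecture** for the group `G` and its Sylow `p`-subgroup `P`. -/
def McKayGalois (p : ℕ) (G : Type) [Group G] (P : Sylow p G) : Prop :=
  PermIso (H p) (IrrPrime p G) (IrrPrime p (Subgroup.normalizer ((P : Subgroup G) : Set G)))

/-- The part of order prime to `q` of the McKay–Galois conjecture: a bijection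
`Irr_{p'}(G) → Irr_{p'}(N_G(P))` which commutes with all `σ ∈ 𝓗` whose action on the `|G|`-th roots of
unity has order prime to `q`. -/
def McKayGaloisPrimeTo (p q : ℕ) (G : Type) [Group G] (P : Sylow p G) : Prop :=
  PermIso {σ | σ ∈ H p ∧ OrderPrimeTo q (Nat.card G) σ} (IrrPrime p G)
    (IrrPrime p (Subgroup.normalizer ((P : Subgroup G) : Set G)))

/-- The number of the members of `Irr_{p'}(G)` which are fixed by all `σ ∈ Ω`. -/
noncomputable def numFixed (p : ℕ) (Ω : Subgroup (ℂ ≃+* ℂ)) (G : Type) [Group G] : ℕ :=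
  Nat.card {χ : G → ℂ // χ ∈ IrrPrime p G ∧ ∀ σ ∈ Ω, ∀ g, σ (χ g) = χ g}

/-- A group, as a structure. -/
structure Gp where
  /-- the underlying type -/
  carrier : Type
  [grp : Group carrier]

attribute [instance] Gp.grp

/-- The (regular) wreath product `K ≀ C_q` with the cyclic group of order `q`. -/
def Gp.wr (q : ℕ) (K : Gp) : Gp := ⟨RegularWreathProduct K.carrier (Multiplicative (ZMod q))⟩

/-- For all subgroups `Ω` of the group generated by `𝓗` and all Sylow `p`-subgroups `Q` of `K` the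
numbers of the `Ω`-invariant characters in `Irr_{p'}(K)` and in `Irr_{p'}(N_K(Q))` are congruent
modulo `q`. -/
def Congruent (p q : ℕ) (K : Gp) : Prop :=
  ∀ (Q : Sylow p K.carrier) (Ω : Subgroup (ℂ ≃+* ℂ)), Ω ≤ Subgroup.closure (H p) →
    numFixed p Ω K.carrier ≡
      numFixed p Ω (Subgroup.normalizer ((Q : Subgroup K.carrier) : Set K.carrier)) [MOD q]

open Pool.Agent.E8helper62.MG (nf XX NN nf_numF kap)

/-- the comparison of the two structures -/
def toMQ (K : Gp) : Pool.Agent.E8helper60.MQ.Gp := ⟨K.carrier⟩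

theorem toMQ_iter (q k : ℕ) (K : Gp) :
    toMQ ((Gp.wr q)^[k] K) = (Pool.Agent.E8helper60.MQ.Gp.wr q)^[k] (toMQ K) := by
  induction k generalizing K with
  | zero => rfl
  | succ k ih =>
    rw [Function.iterate_succ_apply, Function.iterate_succ_apply, ih]
    rfl

theorem congruent_iff (p q : ℕ) [Fact p.Prime] (K : Gp) : Congruent p q K ↔
    Pool.Agent.E8helper60.MQ.CG p q (Subgroup.closure (H p)) (toMQ K) := by
  unfold Congruent Pool.Agent.E8helper60.MQ.CG
  refine forall_congr' fun Q => forall_congr' fun Ω => forall_congr' fun _ => ?_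
  rw [nf_numF, nf_numF]
  rfl

theorem card_XX (p : ℕ) (G : Type) [Group G] :
    Nat.card (XX p G) = Nat.card (IrrPrime p G) := rfl

/-- If `q` does not divide `φ(n)`, all automorphisms act with orders prime to `q`. -/
theorem orderPrimeTo_of_totient {q n : ℕ} (hn : n ≠ 0) (h : ¬ q ∣ Nat.totient n) (σ : ℂ ≃+* ℂ) :
    OrderPrimeTo q n σ := by
  have hne : NeZero n := ⟨hn⟩
  refine ⟨Nat.totient n, h, Pool.Agent.E8helper60.MQ.kap_one_iff.1 ?_⟩
  have h1 : Nat.card {x // x ∈ rootsOfUnity n ℂ} = n := Complex.card_rootsOfUnity n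
  have h2 : Nat.card (ZMod (Nat.card {x // x ∈ rootsOfUnity n ℂ}))ˣ = Nat.totient n := by
    have : NeZero (Nat.card {x // x ∈ rootsOfUnity n ℂ}) := ⟨Nat.card_pos.ne'⟩
    rw [Nat.card_eq_fintype_card, ZMod.card_units_eq_totient, h1]
  rw [map_pow, ← h2, pow_card_eq_one']

/-- **The McKay–Galois conjecture modulo a prime.** Let `p` and `q` be different primes.
(1) Let `G` be a finite group with Sylow `p`-subgroup `P`. The following are equivalent:
(a) there is a bijection `Irr_{p'}(G) → Irr_{p'}(N_G(P))` which commutes with all `σ ∈ 𝓗` whose action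
on the `|G|`-th roots of unity has order prime to `q`;
(b) for all the iterated wreath products `W = G ≀ C_q ≀ ⋯ ≀ C_q` (`k` factors `C_q`, `k ≥ 0`), all
Sylow `p`-subgroups `Q` of `W` and all groups `Ω` of automorphisms in the group generated by `𝓗`, the
numbers of the `Ω`-invariant characters of degree prime to `p` of `W` and of `N_W(Q)` are congruent
modulo `q`;
(c) the same for the `k` with `q ^ k ≤ max (|Irr_{p'}(G)|, |Irr_{p'}(N_G(P))|)`.
If `q` does not divide `φ(|G|)`, then (a) is the McKay–Galois conjecture for `G` and `P`.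
(2) Let `X` be a class of finite groups closed under wreath products with the cyclic group of order
`q` (for instance all finite groups). The numbers in (b) are congruent modulo `q` for all `W ∈ X` if
and only if (a) holds for all `G ∈ X` and all `P`. -/
theorem result (p q : ℕ) [Fact p.Prime] [Fact q.Prime] (hqp : q ≠ p) :
    (∀ (G : Type) [Group G] [Finite G] (P : Sylow p G),
      List.TFAE [
        McKayGaloisPrimeTo p q G P,
        ∀ k : ℕ, Congruent p q ((Gp.wr q)^[k] ⟨G⟩),
        ∀ k : ℕ, q ^ k ≤ max (Nat.card (IrrPrime p G))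
            (Nat.card (IrrPrime p (Subgroup.normalizer ((P : Subgroup G) : Set G)))) →
          Congruent p q ((Gp.wr q)^[k] ⟨G⟩)] ∧
      (¬ q ∣ Nat.totient (Nat.card G) → (McKayGaloisPrimeTo p q G P ↔ McKayGalois p G P))) ∧
    ∀ X : (G : Type) → [Group G] → Prop,
      (∀ (G : Type) [Group G] [Finite G], X G →
        X (RegularWreathProduct G (Multiplicative (ZMod q)))) →
      ((∀ (G : Type) [Group G] [Finite G], X G → Congruent p q ⟨G⟩) ↔
        ∀ (G : Type) [Group G] [Finite G], X G → ∀ P : Sylow p G, McKayGaloisPrimeTo p q G P) := by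
  have key : ∀ (G : Type) [Group G] [Finite G] (P : Sylow p G), List.TFAE [
        McKayGaloisPrimeTo p q G P,
        ∀ k : ℕ, Congruent p q ((Gp.wr q)^[k] ⟨G⟩),
        ∀ k : ℕ, q ^ k ≤ max (Nat.card (IrrPrime p G))
            (Nat.card (IrrPrime p (Subgroup.normalizer ((P : Subgroup G) : Set G)))) →
          Congruent p q ((Gp.wr q)^[k] ⟨G⟩)] := by
    intro G _ _ P
    have h := Pool.Agent.E8helper60.MQ.one_group (q := q) hqp G P
    have e : ∀ k, Congruent p q ((Gp.wr q)^[k] ⟨G⟩) ↔
        Pool.Agent.E8helper60.MQ.CG p q (Subgroup.closure (H p))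
          ((Pool.Agent.E8helper60.MQ.Gp.wr q)^[k] ⟨G⟩) := by
      intro k
      rw [congruent_iff, toMQ_iter]
      rfl
    have e1 : McKayGaloisPrimeTo p q G P ↔ ∀ k : ℕ, Pool.Agent.E8helper60.MQ.CG p q
        (Subgroup.closure (H p)) ((Pool.Agent.E8helper60.MQ.Gp.wr q)^[k] ⟨G⟩) := h.out 0 1
    have e2 : McKayGaloisPrimeTo p q G P ↔ ∀ k : ℕ, q ^ k ≤ max (Nat.card (XX p G))
        (Nat.card (XX p (NN (P : Subgroup G)))) → Pool.Agent.E8helper60.MQ.CG p q
        (Subgroup.closure (H p)) ((Pool.Agent.E8helper60.MQ.Gp.wr q)^[k] ⟨G⟩) := h.out 0 2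
    tfae_have 1 → 2 := fun h1 k => (e k).2 (e1.1 h1 k)
    tfae_have 2 → 3 := fun h1 k _ => h1 k
    tfae_have 3 → 1 := fun h1 => e2.2 fun k hk => (e k).1 (h1 k hk)
    tfae_finish
  refine ⟨fun G _ _ P => ⟨key G P, fun hq => ?_⟩, fun X hX => ⟨fun h G _ _ hG P => ?_,
    fun h G _ _ hG Q Ω hΩ => ?_⟩⟩
  · have h1 : {σ | σ ∈ H p ∧ OrderPrimeTo q (Nat.card G) σ} = H p := by
      ext σ
      exact ⟨fun h => h.1, fun h => ⟨h, orderPrimeTo_of_totient Nat.card_pos.ne' hq σ⟩⟩
    unfold McKayGaloisPrimeTo McKayGalois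
    rw [h1]
  · have hne : NeZero q := ⟨(Fact.out : q.Prime).ne_zero⟩
    have h1 : ∀ (k : ℕ), ∃ (K : Gp), (Gp.wr q)^[k] ⟨G⟩ = K ∧ Finite K.carrier ∧ X K.carrier := by
      intro k
      induction k with
      | zero => exact ⟨⟨G⟩, rfl, inferInstance, hG⟩
      | succ k ih =>
        obtain ⟨K, hK, hf, hXK⟩ := ih
        refine ⟨K.wr q, ?_, ?_, hX K.carrier hXK⟩
        · rw [Function.iterate_succ_apply', hK]
        · change Finite (RegularWreathProduct K.carrier (Multiplicative (ZMod q)))
          infer_instance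
    have h2 : McKayGaloisPrimeTo p q G P ↔ ∀ k : ℕ, Congruent p q ((Gp.wr q)^[k] ⟨G⟩) :=
      (key G P).out 0 1
    refine h2.2 fun k => ?_
    obtain ⟨K, hK, hf, hXK⟩ := h1 k
    rw [hK]
    exact h K.carrier hXK
  · have h1 : McKayGaloisPrimeTo p q G Q ↔ ∀ k : ℕ, Congruent p q ((Gp.wr q)^[k] ⟨G⟩) :=
      (key G Q).out 0 1
    exact h1.1 (h G hG Q) 0 Q Ω hΩ

end Pool.Agent.Results.MP_1ae3da_al.PrimeCongruencesH60
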